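import Mathlib

/-!
`MP_fdfd6d_gt`: there is a plane continuum `X` all of whose points have order at most three, and a
monotone retraction of `X` onto a subcontinuum `Y` which is monotonely refinable although `X` and
`Y` are not homeomorphic.  `X` and `Y` are chains of beads joined by straight segments.
-/

set_option autoImplicit false
open Set Filter Topology

namespace Pool.Agent.Results.MP_fdfd6d_gt.OrderThree

/-- The order (Menger-Urysohn) of the point `p` is at most `n`: `p` has arbitrarily small open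
neighbourhoods whose boundaries contain at most `n` points. -/
def OrderLE {X : Type} [TopologicalSpace X] (p : X) (n : ℕ) : Prop :=
  ∀ U ∈ 𝓝 p, ∃ V : Set X, IsOpen V ∧ p ∈ V ∧ V ⊆ U ∧ (frontier V).encard ≤ n

/-- A nondegenerate continuum all of whose points have order at most `n`. -/
def CurveOfOrderLE (X : Type) [MetricSpace X] (n : ℕ) : Prop :=
  CompactSpace X ∧ ConnectedSpace X ∧ Nontrivial X ∧ ∀ p : X, OrderLE p n

/-- Every fibre is (nonempty and) connected. -/
def MonotoneMap {X Y : Type} [TopologicalSpace X] [TopologicalSpace Y] (f : X → Y) : Prop :=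
  ∀ y, IsConnected (f ⁻¹' {y})

/-- Every fibre has diameter less than `ε`. -/
def EpsMap {X Y : Type} [MetricSpace X] (ε : ℝ) (f : X → Y) : Prop :=
  ∀ y, Metric.diam (f ⁻¹' {y}) < ε

/-- `r` is a continuous surjection which is uniformly approximated, for every `ε > 0`, within `ε` by
a monotone continuous surjective `ε`-map. -/
def MonotonelyRefinable {X Y : Type} [MetricSpace X] [MetricSpace Y] (r : X → Y) : Prop :=
  Continuous r ∧ Function.Surjective r ∧ ∀ ε : ℝ, 0 < ε → ∃ f : X → Y,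
    Continuous f ∧ Function.Surjective f ∧ MonotoneMap f ∧ EpsMap ε f ∧ ∀ x, dist (f x) (r x) < ε

/-- The chain of beads over `J` with half-width function `d`. -/
def Beads (d : ℝ → ℝ) (J : Set ℝ) : Set (ℝ × ℝ) := {p | p.1 ∈ J ∧ |p.2| = d p.1}

theorem beads_eq (d : ℝ → ℝ) (hd0 : ∀ t, 0 ≤ d t) (J : Set ℝ) :
    Beads d J = (fun t => (t, d t)) '' J ∪ (fun t => (t, -d t)) '' J := by
  ext ⟨t, y⟩
  constructor
  · rintro ⟨ht, hy⟩
    have hy' : |y| = d t := hy
    rcases abs_cases y with ⟨h1, _⟩ | ⟨h1, _⟩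
    · left; exact ⟨t, ht, Prod.ext rfl (by show d t = y; rw [← hy', h1])⟩
    · right; exact ⟨t, ht, Prod.ext rfl (by show -d t = y; rw [← hy', h1]; simp)⟩
  · rintro (⟨s, hs, h⟩ | ⟨s, hs, h⟩)
    · have h1 : s = t := congrArg Prod.fst h
      have h2 : d s = y := congrArg Prod.snd h
      subst h1
      exact ⟨hs, by show |y| = d s; rw [← h2, abs_of_nonneg (hd0 s)]⟩
    · have h1 : s = t := congrArg Prod.fst h
      have h2 : -d s = y := congrArg Prod.snd h
      subst h1
      exact ⟨hs, by show |y| = d s; rw [← h2, abs_neg, abs_of_nonneg (hd0 s)]⟩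

theorem beads_preconnected (d : ℝ → ℝ) (hd : Continuous d) (hd0 : ∀ t, 0 ≤ d t) (J : Set ℝ)
    (hJ : IsPreconnected J) (u : ℝ) (hu : u ∈ J) (hdu : d u = 0) : IsPreconnected (Beads d J) := by
  rw [beads_eq d hd0 J]
  have c1 : Continuous (fun t => (t, d t)) := by fun_prop
  have c2 : Continuous (fun t => (t, -d t)) := by fun_prop
  exact IsPreconnected.union (u, 0) ⟨u, hu, Prod.ext rfl hdu⟩
    ⟨u, hu, Prod.ext rfl (by show -d u = 0; rw [hdu]; simp)⟩
    (hJ.image _ c1.continuousOn) (hJ.image _ c2.continuousOn)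

theorem beads_compact (d : ℝ → ℝ) (hd : Continuous d) (hd0 : ∀ t, 0 ≤ d t) (a b : ℝ) :
    IsCompact (Beads d (Icc a b)) := by
  rw [beads_eq d hd0]
  have c1 : Continuous (fun t => (t, d t)) := by fun_prop
  have c2 : Continuous (fun t => (t, -d t)) := by fun_prop
  exact (isCompact_Icc.image c1).union (isCompact_Icc.image c2)

/-- every point of a chain of beads has order at most three, if no two beads touch -/
theorem beads_order (d : ℝ → ℝ) (hd : Continuous d) (J : Set ℝ)
    (hZ : ∀ t0 ∈ J, d t0 = 0 → ∀ ε : ℝ, 0 < ε → ∃ ρ : ℝ, 0 < ρ ∧ ρ < ε ∧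
      (d (t0 + ρ) = 0 ∨ d (t0 - ρ) = 0))
    (p : Beads d J) : OrderLE p 3 := by
  intro U hU
  obtain ⟨ε, hε, hball⟩ := Metric.mem_nhds_iff.1 hU
  set t0 := p.1.1 with ht0
  set y0 := p.1.2 with hy0
  have hp : |y0| = d t0 := p.2.2
  -- the candidate boundary points
  have hfin : ∀ ρ : ℝ, (d (t0 + ρ) = 0 ∨ d (t0 - ρ) = 0) →
      ({q : Beads d J | |q.1.1 - t0| = ρ} : Set (Beads d J)).encard ≤ 3 := by
    intro ρ hz
    have hpt : ∀ q : Beads d J, |q.1.1 - t0| = ρ →
        q.1 = (t0 + ρ, d (t0 + ρ)) ∨ q.1 = (t0 + ρ, -d (t0 + ρ)) ∨ q.1 = (t0 - ρ, d (t0 - ρ)) ∨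
          q.1 = (t0 - ρ, -d (t0 - ρ)) := by
      intro q hq1
      have hq2 : |q.1.2| = d q.1.1 := q.2.2
      have h1 : q.1.1 = t0 + ρ ∨ q.1.1 = t0 - ρ := by
        rcases abs_cases (q.1.1 - t0) with ⟨h, _⟩ | ⟨h, _⟩
        · left; linarith
        · right; linarith
      have h2 : q.1.2 = d q.1.1 ∨ q.1.2 = - d q.1.1 := by
        rcases abs_cases q.1.2 with ⟨h, _⟩ | ⟨h, _⟩
        · left; linarith
        · right; linarith
      have hq' : q.1 = (q.1.1, q.1.2) := rfl
      rcases h1 with h1 | h1 <;> rcases h2 with h2 | h2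
      · left; rw [hq', h2, h1]
      · right; left; rw [hq', h2, h1]
      · right; right; left; rw [hq', h2, h1]
      · right; right; right; rw [hq', h2, h1]
    have hsub : ∃ F : Finset (ℝ × ℝ), F.card ≤ 3 ∧
        Subtype.val '' ({q : Beads d J | |q.1.1 - t0| = ρ} : Set (Beads d J)) ⊆ F := by
      rcases hz with hz | hz
      · refine ⟨{(t0 + ρ, 0), (t0 - ρ, d (t0 - ρ)), (t0 - ρ, -d (t0 - ρ))},
          Finset.card_le_three, ?_⟩
        rintro _ ⟨q, hq, rfl⟩
        simp only [Finset.coe_insert, Finset.coe_singleton, mem_insert_iff, mem_singleton_iff]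
        rcases hpt q hq with h | h | h | h
        · left; rw [h, hz]
        · left; rw [h, hz, neg_zero]
        · right; left; exact h
        · right; right; exact h
      · refine ⟨{(t0 - ρ, 0), (t0 + ρ, d (t0 + ρ)), (t0 + ρ, -d (t0 + ρ))},
          Finset.card_le_three, ?_⟩
        rintro _ ⟨q, hq, rfl⟩
        simp only [Finset.coe_insert, Finset.coe_singleton, mem_insert_iff, mem_singleton_iff]
        rcases hpt q hq with h | h | h | h
        · right; left; exact h
        · right; right; exact h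
        · left; rw [h, hz]
        · left; rw [h, hz, neg_zero]
    obtain ⟨F, hF, hsub⟩ := hsub
    have h3 := Set.encard_le_encard hsub
    rw [Subtype.val_injective.encard_image] at h3
    refine h3.trans ?_
    rw [Set.encard_coe_eq_coe_finsetCard]
    exact_mod_cast hF
  have hcont1 : Continuous (fun q : Beads d J => q.1.1) := continuous_fst.comp continuous_subtype_val
  have hcont2 : Continuous (fun q : Beads d J => q.1.2) := continuous_snd.comp continuous_subtype_val
  by_cases hy : y0 = 0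
  · -- a zero of d
    have hd0' : d t0 = 0 := by rw [← hp, hy]; simp
    obtain ⟨ρ0, hρ0, hρ⟩ := Metric.continuousAt_iff.1 (hd.continuousAt (x := t0)) ε hε
    obtain ⟨ρ, hρpos, hρlt, hρz⟩ := hZ t0 p.2.1 hd0' (min ρ0 ε) (lt_min hρ0 hε)
    refine ⟨{q | |q.1.1 - t0| < ρ}, ?_, ?_, ?_, ?_⟩
    · exact isOpen_lt (hcont1.sub continuous_const).abs continuous_const
    · show |p.1.1 - t0| < ρ
      simp [ht0, hρpos]
    · intro q hq
      have hq1 : |q.1.1 - t0| < ρ := hq
      apply hball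
      rw [Metric.mem_ball, Subtype.dist_eq, Prod.dist_eq]
      apply max_lt
      · rw [Real.dist_eq]; exact (hq1.trans hρlt).trans_le (min_le_right _ _)
      · rw [Real.dist_eq, ← hy0, hy, sub_zero, q.2.2]
        have := hρ (x := q.1.1) (by
          rw [Real.dist_eq]; exact (hq1.trans hρlt).trans_le (min_le_left _ _))
        rw [Real.dist_eq, hd0', sub_zero] at this
        exact (le_abs_self _).trans_lt this
    · refine le_trans (Set.encard_le_encard ?_) (hfin ρ hρz)
      exact frontier_lt_subset_eq (hcont1.sub continuous_const).abs continuous_const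
  · -- a point with nonzero second coordinate
    have hdpos : 0 < d t0 := by rw [← hp]; exact abs_pos.2 hy
    obtain ⟨ρ0, hρ0, hρ⟩ := Metric.continuousAt_iff.1 (hd.continuousAt (x := t0)) (min ε (d t0))
      (lt_min hε hdpos)
    set ρ := min (ρ0 / 2) ε with hρdef
    have hρpos : 0 < ρ := lt_min (by positivity) hε
    have hnear : ∀ s, |s - t0| ≤ ρ → |d s - d t0| < min ε (d t0) := by
      intro s hs
      have h1 : ρ ≤ ρ0 / 2 := min_le_left _ _
      have := hρ (x := s) (by rw [Real.dist_eq]; linarith)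
      rwa [Real.dist_eq] at this
    refine ⟨{q | |q.1.1 - t0| < ρ} ∩ {q | 0 < q.1.2 * y0}, ?_, ?_, ?_, ?_⟩
    · apply IsOpen.inter
      · exact isOpen_lt (hcont1.sub continuous_const).abs continuous_const
      · exact isOpen_lt continuous_const (hcont2.mul continuous_const)
    · refine ⟨?_, ?_⟩
      · show |p.1.1 - t0| < ρ
        simp [ht0, hρpos]
      · show 0 < y0 * y0
        exact mul_self_pos.2 hy
    · rintro q ⟨hq, hqs⟩
      have hq1 : |q.1.1 - t0| < ρ := hq
      have hq2 : 0 < q.1.2 * y0 := hqs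
      apply hball
      rw [Metric.mem_ball, Subtype.dist_eq, Prod.dist_eq]
      apply max_lt
      · rw [Real.dist_eq]; exact lt_of_lt_of_le hq1 (min_le_right _ _)
      · rw [Real.dist_eq]
        have h3 : |(|q.1.2| - |y0|)| < ε := by
          rw [q.2.2, hp]
          exact lt_of_lt_of_le (hnear _ hq1.le) (min_le_left _ _)
        have h4 : |q.1.2 - y0| = |(|q.1.2| - |y0|)| := by
          rcases lt_or_gt_of_ne hy with h | h
          · have h5 : q.1.2 < 0 := by
              by_contra hc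
              push Not at hc
              have := mul_nonpos_of_nonneg_of_nonpos hc h.le
              linarith
            rw [abs_of_neg h5, abs_of_neg h, ← abs_neg]
            congr 1; ring
          · have h5 : 0 < q.1.2 := by
              by_contra hc
              push Not at hc
              have := mul_nonpos_of_nonpos_of_nonneg hc h.le
              linarith
            rw [abs_of_pos h5, abs_of_pos h]
        rw [h4]; exact h3
    · have hsub : frontier ({q : Beads d J | |q.1.1 - t0| < ρ} ∩ {q | 0 < q.1.2 * y0}) ⊆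
          {q : Beads d J | |q.1.1 - t0| = ρ ∧ 0 < q.1.2 * y0} := by
        rintro q hq
        have hcl : q ∈ closure ({q : Beads d J | |q.1.1 - t0| < ρ} ∩ {q | 0 < q.1.2 * y0}) := hq.1
        have hni : q ∉ ({q : Beads d J | |q.1.1 - t0| < ρ} ∩ {q | 0 < q.1.2 * y0}) := by
          intro hmem
          apply hq.2
          apply mem_interior_iff_mem_nhds.2
          apply IsOpen.mem_nhds _ hmem
          apply IsOpen.inter
          · exact isOpen_lt (hcont1.sub continuous_const).abs continuous_const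
          · exact isOpen_lt continuous_const (hcont2.mul continuous_const)
        have hclosed : IsClosed ({q : Beads d J | |q.1.1 - t0| ≤ ρ} ∩ {q | 0 ≤ q.1.2 * y0}) := by
          apply IsClosed.inter
          · exact isClosed_le (hcont1.sub continuous_const).abs continuous_const
          · exact isClosed_le continuous_const (hcont2.mul continuous_const)
        have hsubc : ({q : Beads d J | |q.1.1 - t0| < ρ} ∩ {q | 0 < q.1.2 * y0}) ⊆
            ({q : Beads d J | |q.1.1 - t0| ≤ ρ} ∩ {q | 0 ≤ q.1.2 * y0}) := fun w hw =>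
          ⟨le_of_lt (show |w.1.1 - t0| < ρ from hw.1), le_of_lt (show 0 < w.1.2 * y0 from hw.2)⟩
        have hq' := closure_minimal hsubc hclosed hcl
        have h1 : |q.1.1 - t0| ≤ ρ := hq'.1
        have h2 : 0 ≤ q.1.2 * y0 := hq'.2
        have h3 : q.1.2 ≠ 0 := by
          intro h0
          have h4 : d q.1.1 = 0 := by rw [← q.2.2, h0]; simp
          have h5 := lt_of_lt_of_le (hnear _ h1) (min_le_right _ _)
          rw [h4, zero_sub, abs_neg, abs_of_pos hdpos] at h5
          exact lt_irrefl _ h5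
        have h4 : 0 < q.1.2 * y0 := lt_of_le_of_ne h2 (Ne.symm (mul_ne_zero h3 hy))
        have h6 : |q.1.1 - t0| = ρ := by
          by_contra hne
          exact hni ⟨lt_of_le_of_ne h1 hne, h4⟩
        exact ⟨h6, h4⟩
      refine (Set.encard_le_encard hsub).trans ?_
      have hinj : InjOn (fun q : Beads d J => q.1.1)
          {q : Beads d J | |q.1.1 - t0| = ρ ∧ 0 < q.1.2 * y0} := by
        intro q hq q' hq' hqq
        have e1 : q.1.1 = q'.1.1 := hqq
        have e2 : |q.1.2| = |q'.1.2| := by rw [q.2.2, q'.2.2, e1]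
        have e3 : q.1.2 = q'.1.2 := by
          rcases abs_eq_abs.1 e2 with h | h
          · exact h
          · exfalso
            have a1 : 0 < q.1.2 * y0 := hq.2
            have a2 : 0 < q'.1.2 * y0 := hq'.2
            rw [h] at a1
            nlinarith
        exact Subtype.ext (Prod.ext e1 e3)
      rw [← hinj.encard_image]
      have himg : (fun q : Beads d J => q.1.1) ''
          {q : Beads d J | |q.1.1 - t0| = ρ ∧ 0 < q.1.2 * y0} ⊆
            (({t0 + ρ, t0 - ρ} : Finset ℝ) : Set ℝ) := by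
        rintro _ ⟨q, hq, rfl⟩
        have hq1 : |q.1.1 - t0| = ρ := hq.1
        simp only [Finset.coe_insert, Finset.coe_singleton, mem_insert_iff, mem_singleton_iff]
        rcases abs_cases (q.1.1 - t0) with ⟨h, _⟩ | ⟨h, _⟩
        · left; linarith
        · right; linarith
      refine (Set.encard_le_encard himg).trans ?_
      rw [Set.encard_coe_eq_coe_finsetCard]
      have : ({t0 + ρ, t0 - ρ} : Finset ℝ).card ≤ 3 := Finset.card_le_two.trans (by norm_num)
      exact_mod_cast this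

/-- The sign function of the beads. -/
noncomputable def s (t : ℝ) : ℝ := Real.sin (2 * Real.pi * (Real.log t / Real.log 2))

/-- The half-width function: positive on the intervals between `2 ^ n` and `2 ^ (n + 1 / 2)`, zero
on the intervals between `2 ^ (n + 1 / 2)` and `2 ^ (n + 1)`. -/
noncomputable def w (t : ℝ) : ℝ := |t| * max (s t) 0

theorem w_nonneg (t : ℝ) : 0 ≤ w t := mul_nonneg (abs_nonneg _) (le_max_right _ _)

theorem w_le (t : ℝ) : w t ≤ |t| :=
  mul_le_of_le_one_right (abs_nonneg _) (max_le (Real.sin_le_one _) zero_le_one)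

theorem w_zero : w 0 = 0 := by simp [w]

theorem s_one : s 1 = 0 := by simp [s]

theorem w_one : w 1 = 0 := by simp [w, s_one]

theorem w_of_nonpos {t : ℝ} (h : s t ≤ 0) : w t = 0 := by
  unfold w
  rw [max_eq_right h, mul_zero]

theorem s_of_w {t : ℝ} (ht : 0 < t) (h : w t = 0) : s t ≤ 0 := by
  unfold w at h
  rcases mul_eq_zero.1 h with h1 | h1
  · exact absurd (abs_eq_zero.1 h1) ht.ne'
  · exact max_eq_right_iff.1 h1

theorem s_deriv (t : ℝ) (ht : t ≠ 0) :
    HasDerivAt s (Real.cos (2 * Real.pi * (Real.log t / Real.log 2)) *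
      (2 * Real.pi * (t⁻¹ / Real.log 2))) t := by
  have h1 : HasDerivAt (fun t => 2 * Real.pi * (Real.log t / Real.log 2))
      (2 * Real.pi * (t⁻¹ / Real.log 2)) t :=
    ((Real.hasDerivAt_log ht).div_const _).const_mul _
  exact h1.sin

theorem s_contAt (t : ℝ) (ht : t ≠ 0) : ContinuousAt s t := (s_deriv t ht).continuousAt

theorem s_deriv_ne (t : ℝ) (ht : 0 < t) (h0 : s t = 0) :
    Real.cos (2 * Real.pi * (Real.log t / Real.log 2)) *
      (2 * Real.pi * (t⁻¹ / Real.log 2)) ≠ 0 := by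
  have hl2 : 0 < Real.log 2 := Real.log_pos (by norm_num)
  apply mul_ne_zero
  · intro hc
    have h1 := Real.sin_sq_add_cos_sq (2 * Real.pi * (Real.log t / Real.log 2))
    have h2 : Real.sin (2 * Real.pi * (Real.log t / Real.log 2)) = 0 := h0
    rw [hc, h2] at h1
    norm_num at h1
  · have := Real.pi_pos
    positivity

theorem w_cont : Continuous w := by
  rw [continuous_iff_continuousAt]
  intro t
  by_cases ht : t = 0
  · subst ht
    rw [ContinuousAt, w_zero]
    have hlim : Tendsto (fun t : ℝ => |t|) (𝓝 0) (𝓝 0) := by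
      have := (continuous_abs (G := ℝ)).tendsto 0
      simpa using this
    exact squeeze_zero w_nonneg w_le hlim
  · unfold w
    exact continuousAt_id.abs.mul ((s_contAt t ht).max continuousAt_const)

theorem s_scale (k : ℕ) (t : ℝ) (ht : 0 < t) : s ((1 / 2) ^ k * t) = s t := by
  have h2 : (0 : ℝ) < (1 / 2) ^ k := by positivity
  have hl2 : Real.log 2 ≠ 0 := (Real.log_pos (by norm_num)).ne'
  have h3 : Real.log ((1 / 2 : ℝ) ^ k * t) / Real.log 2 = Real.log t / Real.log 2 - k := by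
    rw [Real.log_mul h2.ne' ht.ne', Real.log_pow, one_div, Real.log_inv]
    field_simp
    ring
  unfold s
  rw [h3]
  have h4 : 2 * Real.pi * (Real.log t / Real.log 2 - k) =
      2 * Real.pi * (Real.log t / Real.log 2) - k * (2 * Real.pi) := by ring
  rw [h4, Real.sin_sub_nat_mul_two_pi]

theorem w_scale (k : ℕ) (t : ℝ) (ht : 0 ≤ t) : w ((1 / 2) ^ k * t) = (1 / 2) ^ k * w t := by
  rcases eq_or_lt_of_le ht with h | h
  · rw [← h, mul_zero, w_zero, mul_zero]
  · unfold w
    have h2 : (0 : ℝ) < (1 / 2) ^ k := by positivity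
    rw [s_scale k t h, abs_mul, abs_of_pos h2, mul_assoc]

theorem w_half_pow (k : ℕ) : w ((1 / 2) ^ k) = 0 := by
  have := w_scale k 1 zero_le_one
  rw [mul_one, w_one, mul_zero] at this
  exact this

theorem s_near (t0 : ℝ) (ht : 0 < t0) (h0 : s t0 ≤ 0) (ε : ℝ) (hε : 0 < ε) :
    ∃ ρ : ℝ, 0 < ρ ∧ ρ < ε ∧ (s (t0 + ρ) ≤ 0 ∨ s (t0 - ρ) ≤ 0) := by
  by_contra hcon
  push Not at hcon
  have hev : ∀ᶠ t in 𝓝 t0, t ≠ t0 → 0 < s t := by
    filter_upwards [Metric.ball_mem_nhds t0 hε] with t ht1 hne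
    rw [Metric.mem_ball, Real.dist_eq] at ht1
    rcases lt_or_gt_of_ne hne with h | h
    · have := (hcon (t0 - t) (by linarith) (by rw [abs_of_neg (by linarith)] at ht1; linarith)).2
      rwa [sub_sub_cancel] at this
    · have := (hcon (t - t0) (by linarith) (by rw [abs_of_pos (by linarith)] at ht1; linarith)).1
      rwa [add_sub_cancel] at this
  have hge : 0 ≤ s t0 := by
    have h1 : Tendsto s (𝓝[≠] t0) (𝓝 (s t0)) := (s_contAt t0 ht.ne').tendsto.mono_left
      nhdsWithin_le_nhds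
    apply ge_of_tendsto h1
    filter_upwards [mem_nhdsWithin_of_mem_nhds hev, self_mem_nhdsWithin] with t h2 h3
    exact (h2 h3).le
  have hz : s t0 = 0 := le_antisymm h0 hge
  have hmin : IsLocalMin s t0 := by
    filter_upwards [hev] with t h2
    rcases eq_or_ne t t0 with h | h
    · rw [h]
    · rw [hz]; exact (h2 h).le
  exact s_deriv_ne t0 ht hz (hmin.hasDerivAt_eq_zero (s_deriv t0 ht.ne'))

theorem w_near (t0 : ℝ) (ht : 0 ≤ t0) (h0 : w t0 = 0) (ε : ℝ) (hε : 0 < ε) :
    ∃ ρ : ℝ, 0 < ρ ∧ ρ < ε ∧ (w (t0 + ρ) = 0 ∨ w (t0 - ρ) = 0) := by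
  rcases eq_or_lt_of_le ht with h | h
  · obtain ⟨k, hk⟩ := exists_pow_lt_of_lt_one hε (show (1 / 2 : ℝ) < 1 by norm_num)
    refine ⟨(1 / 2) ^ k, by positivity, hk, Or.inl ?_⟩
    rw [← h, zero_add, w_half_pow]
  · obtain ⟨ρ, h1, h2, h3⟩ := s_near t0 h (s_of_w h h0) ε hε
    exact ⟨ρ, h1, h2, h3.imp w_of_nonpos w_of_nonpos⟩

/-- the half-width function of the longer chain -/
noncomputable def w2 (t : ℝ) : ℝ := if t ≤ 0 then w (t + 1) else w t

theorem w2_nonneg (t : ℝ) : 0 ≤ w2 t := by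
  unfold w2; split_ifs <;> exact w_nonneg _

theorem w2_cont : Continuous w2 := by
  unfold w2
  apply Continuous.if_le
  · exact w_cont.comp (by fun_prop)
  · exact w_cont
  · exact continuous_id
  · exact continuous_const
  · intro x hx
    rw [hx]; simp [w_zero, w_one]

/-- the long chain: two sequences of beads one after the other -/
abbrev XX : Type := Beads w2 (Icc (-1) 1)

/-- the short chain: one sequence of beads converging to a point -/
abbrev YY : Type := Beads w (Icc 0 1)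

theorem XX_pos (p : XX) (hp : 0 ≤ p.1.1) : |p.1.2| = w p.1.1 := by
  have h := p.2.2
  rcases eq_or_lt_of_le hp with h0 | h0
  · rw [h, ← h0]; simp [w2, w_zero, w_one]
  · rw [h]; simp [w2, not_le.2 h0]

theorem XX_neg (p : XX) (hp : p.1.1 ≤ 0) : |p.1.2| = w (p.1.1 + 1) := by
  have h := p.2.2
  rw [h]; simp [w2, hp]

/-- the limit map: the second sequence of beads is collapsed -/
noncomputable def r0 (p : XX) : ℝ × ℝ := if 0 ≤ p.1.1 then p.1 else (0, 0)

theorem r0_mem (p : XX) : r0 p ∈ Beads w (Icc 0 1) := by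
  unfold r0
  split_ifs with h
  · exact ⟨⟨h, p.2.1.2⟩, XX_pos p h⟩
  · exact ⟨⟨le_rfl, zero_le_one⟩, by simp [w_zero]⟩

theorem XX_at_zero (p : XX) (hp : p.1.1 = 0) : p.1 = (0, 0) := by
  have h := XX_pos p hp.ge
  rw [hp, w_zero, abs_eq_zero] at h
  exact Prod.ext hp h

noncomputable def r (p : XX) : YY := ⟨r0 p, r0_mem p⟩

theorem r_cont : Continuous r := by
  apply Continuous.subtype_mk
  unfold r0
  apply Continuous.if_le
  · exact continuous_subtype_val
  · exact continuous_const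
  · exact continuous_const
  · exact continuous_fst.comp continuous_subtype_val
  · intro x hx
    exact XX_at_zero x hx.symm

theorem r_surj : Function.Surjective r := by
  intro q
  have hq0 : 0 ≤ q.1.1 := q.2.1.1
  have hmem : q.1 ∈ Beads w2 (Icc (-1) 1) := by
    refine ⟨⟨by linarith, q.2.1.2⟩, ?_⟩
    rw [q.2.2]
    rcases eq_or_lt_of_le hq0 with h0 | h0
    · rw [← h0]; simp [w2, w_zero, w_one]
    · simp [w2, not_le.2 h0]
  refine ⟨⟨q.1, hmem⟩, ?_⟩
  apply Subtype.ext
  show r0 ⟨q.1, hmem⟩ = q.1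
  unfold r0
  simp [hq0]

/-- the approximating monotone maps -/
noncomputable def f0 (k : ℕ) (p : XX) : ℝ × ℝ :=
  if (1 / 2) ^ k ≤ p.1.1 then p.1 else
    if 0 ≤ p.1.1 then ((1 / 2) ^ k, 0) else ((1 / 2) ^ k * (p.1.1 + 1), (1 / 2) ^ k * p.1.2)

theorem half_pow_pos (k : ℕ) : (0 : ℝ) < (1 / 2) ^ k := by positivity

theorem half_pow_le (k : ℕ) : ((1 : ℝ) / 2) ^ k ≤ 1 := pow_le_one₀ (by norm_num) (by norm_num)

theorem f0_mem (k : ℕ) (p : XX) : f0 k p ∈ Beads w (Icc 0 1) := by
  have hk := half_pow_pos k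
  have hk1 := half_pow_le k
  unfold f0
  split_ifs with h1 h2
  · exact ⟨⟨hk.le.trans h1, p.2.1.2⟩, XX_pos p (hk.le.trans h1)⟩
  · refine ⟨⟨hk.le, hk1⟩, ?_⟩
    show |(0 : ℝ)| = w ((1 / 2) ^ k)
    rw [w_half_pow, abs_zero]
  · push Not at h2
    have hp1 : 0 ≤ p.1.1 + 1 := by linarith [p.2.1.1]
    refine ⟨⟨mul_nonneg hk.le hp1, ?_⟩, ?_⟩
    · show (1 / 2) ^ k * (p.1.1 + 1) ≤ 1
      calc (1 / 2 : ℝ) ^ k * (p.1.1 + 1) ≤ 1 * 1 := by
            apply mul_le_mul hk1 (by linarith) hp1 zero_le_one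
        _ = 1 := by ring
    · show |(1 / 2 : ℝ) ^ k * p.1.2| = w ((1 / 2) ^ k * (p.1.1 + 1))
      rw [w_scale k _ hp1, abs_mul, abs_of_pos hk, XX_neg p h2.le]

noncomputable def f (k : ℕ) (p : XX) : YY := ⟨f0 k p, f0_mem k p⟩

theorem f_cont (k : ℕ) : Continuous (f k) := by
  have hc1 : Continuous (fun p : XX => p.1.1) := continuous_fst.comp continuous_subtype_val
  have hc2 : Continuous (fun p : XX => p.1.2) := continuous_snd.comp continuous_subtype_val
  apply Continuous.subtype_mk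
  unfold f0
  apply Continuous.if_le
  · exact continuous_subtype_val
  · apply Continuous.if_le
    · exact continuous_const
    · exact (continuous_const.mul (hc1.add continuous_const)).prodMk (continuous_const.mul hc2)
    · exact continuous_const
    · exact hc1
    · intro x hx
      have h := XX_at_zero x hx.symm
      rw [h]; simp
  · exact continuous_const
  · exact hc1
  · intro x hx
    have hk := half_pow_pos k
    have h0 : 0 ≤ x.1.1 := by rw [← hx]; exact hk.le
    rw [if_pos h0]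
    have h := XX_pos x h0
    rw [← hx, w_half_pow, abs_eq_zero] at h
    exact Prod.ext hx.symm h

theorem f_surj (k : ℕ) : Function.Surjective (f k) := by
  intro q
  have hk := half_pow_pos k
  have hk1 := half_pow_le k
  have hq0 : 0 ≤ q.1.1 := q.2.1.1
  by_cases hle : (1 / 2) ^ k ≤ q.1.1
  · have hmem : q.1 ∈ Beads w2 (Icc (-1) 1) := by
      refine ⟨⟨by linarith, q.2.1.2⟩, ?_⟩
      rw [q.2.2]
      simp [w2, not_le.2 (lt_of_lt_of_le hk hle)]
    refine ⟨⟨q.1, hmem⟩, ?_⟩
    apply Subtype.ext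
    show f0 k ⟨q.1, hmem⟩ = q.1
    unfold f0
    rw [if_pos hle]
  · push Not at hle
    have hs0 : 0 ≤ q.1.1 / (1 / 2) ^ k := div_nonneg hq0 hk.le
    have hs1 : q.1.1 / (1 / 2) ^ k < 1 := (div_lt_one hk).2 hle
    have hmem : ((q.1.1 / (1 / 2) ^ k - 1, q.1.2 / (1 / 2) ^ k) : ℝ × ℝ) ∈
        Beads w2 (Icc (-1) 1) := by
      refine ⟨⟨by show -1 ≤ q.1.1 / (1 / 2) ^ k - 1; linarith,
        by show q.1.1 / (1 / 2) ^ k - 1 ≤ 1; linarith⟩, ?_⟩
      show |q.1.2 / (1 / 2) ^ k| = w2 (q.1.1 / (1 / 2) ^ k - 1)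
      have h1 : q.1.1 / (1 / 2) ^ k - 1 ≤ 0 := by linarith
      unfold w2
      rw [if_pos h1, sub_add_cancel, abs_div, abs_of_pos hk, q.2.2]
      have h2 := w_scale k _ hs0
      rw [mul_div_cancel₀ _ hk.ne'] at h2
      rw [h2, mul_div_cancel_left₀ _ hk.ne']
    refine ⟨⟨_, hmem⟩, ?_⟩
    apply Subtype.ext
    show f0 k ⟨_, hmem⟩ = q.1
    unfold f0
    have h1 : ¬ ((1 / 2) ^ k ≤ q.1.1 / (1 / 2) ^ k - 1) := by linarith
    have h2 : ¬ (0 ≤ q.1.1 / (1 / 2) ^ k - 1) := by linarith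
    rw [if_neg h1, if_neg h2]
    apply Prod.ext
    · show (1 / 2) ^ k * (q.1.1 / (1 / 2) ^ k - 1 + 1) = q.1.1
      rw [sub_add_cancel, mul_div_cancel₀ _ hk.ne']
    · show (1 / 2) ^ k * (q.1.2 / (1 / 2) ^ k) = q.1.2
      rw [mul_div_cancel₀ _ hk.ne']

/-- fibres: two points with the same image agree or both lie in the collapsed part -/
theorem f_fibre (k : ℕ) (p q : XX) (h : f k p = f k q) :
    p = q ∨ ((0 ≤ p.1.1 ∧ p.1.1 ≤ (1 / 2) ^ k) ∧ (0 ≤ q.1.1 ∧ q.1.1 ≤ (1 / 2) ^ k)) := by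
  have hk := half_pow_pos k
  have h0 : f0 k p = f0 k q := congrArg Subtype.val h
  have hval : ∀ p : XX, ((1 / 2) ^ k < p.1.1 ∧ f0 k p = p.1) ∨
      ((0 ≤ p.1.1 ∧ p.1.1 ≤ (1 / 2) ^ k) ∧ f0 k p = ((1 / 2) ^ k, 0)) ∨
      (p.1.1 < 0 ∧ f0 k p = ((1 / 2) ^ k * (p.1.1 + 1), (1 / 2) ^ k * p.1.2)) := by
    intro p
    rcases lt_trichotomy ((1 / 2 : ℝ) ^ k) p.1.1 with h1 | h1 | h1
    · left
      exact ⟨h1, by unfold f0; rw [if_pos h1.le]⟩
    · right; left
      refine ⟨⟨by rw [← h1]; exact hk.le, h1.ge⟩, ?_⟩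
      unfold f0
      rw [if_pos h1.le]
      have h2 := XX_pos p (by rw [← h1]; exact hk.le)
      rw [← h1, w_half_pow, abs_eq_zero] at h2
      exact Prod.ext h1.symm h2
    · by_cases h2 : 0 ≤ p.1.1
      · right; left
        exact ⟨⟨h2, h1.le⟩, by unfold f0; rw [if_neg (not_le.2 h1), if_pos h2]⟩
      · right; right
        exact ⟨not_le.1 h2, by unfold f0; rw [if_neg (not_le.2 h1), if_neg h2]⟩
  rcases hval p with ⟨a1, a2⟩ | ⟨a1, a2⟩ | ⟨a1, a2⟩ <;>
    rcases hval q with ⟨b1, b2⟩ | ⟨b1, b2⟩ | ⟨b1, b2⟩ <;> rw [a2, b2] at h0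
  · left; exact Subtype.ext h0
  · exfalso
    have : p.1.1 = (1 / 2) ^ k := congrArg Prod.fst h0
    linarith
  · exfalso
    have : p.1.1 = (1 / 2) ^ k * (q.1.1 + 1) := congrArg Prod.fst h0
    nlinarith
  · exfalso
    have : (1 / 2) ^ k = q.1.1 := congrArg Prod.fst h0
    linarith
  · right; exact ⟨a1, b1⟩
  · exfalso
    have : (1 / 2 : ℝ) ^ k = (1 / 2) ^ k * (q.1.1 + 1) := congrArg Prod.fst h0
    nlinarith
  · exfalso
    have : (1 / 2) ^ k * (p.1.1 + 1) = q.1.1 := congrArg Prod.fst h0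
    nlinarith
  · exfalso
    have : (1 / 2 : ℝ) ^ k * (p.1.1 + 1) = (1 / 2) ^ k := congrArg Prod.fst h0
    nlinarith
  · left
    have e1 : (1 / 2 : ℝ) ^ k * (p.1.1 + 1) = (1 / 2) ^ k * (q.1.1 + 1) := congrArg Prod.fst h0
    have e2 : (1 / 2 : ℝ) ^ k * p.1.2 = (1 / 2) ^ k * q.1.2 := congrArg Prod.snd h0
    have e3 := mul_left_cancel₀ hk.ne' e1
    have e4 := mul_left_cancel₀ hk.ne' e2
    apply Subtype.ext
    exact Prod.ext (by linarith) e4

theorem f_const (k : ℕ) (p : XX) (h1 : 0 ≤ p.1.1) (h2 : p.1.1 ≤ (1 / 2) ^ k) :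
    f0 k p = ((1 / 2) ^ k, 0) := by
  have hk := half_pow_pos k
  unfold f0
  rcases eq_or_lt_of_le h2 with h | h
  · rw [if_pos h.ge]
    have h3 := XX_pos p h1
    rw [h, w_half_pow, abs_eq_zero] at h3
    exact Prod.ext h h3
  · rw [if_neg (not_le.2 h), if_pos h1]

theorem subset_strip_connected (u v : ℝ) (huv : u ≤ v) (hu : w2 u = 0) (h1 : -1 ≤ u) (h2 : v ≤ 1) :
    IsPreconnected {p : XX | u ≤ p.1.1 ∧ p.1.1 ≤ v} := by
  have himg : Subtype.val '' {p : XX | u ≤ p.1.1 ∧ p.1.1 ≤ v} = Beads w2 (Icc u v) := by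
    ext q
    constructor
    · rintro ⟨p, hp, rfl⟩
      exact ⟨hp, p.2.2⟩
    · rintro ⟨hq1, hq2⟩
      exact ⟨⟨q, ⟨h1.trans hq1.1, hq1.2.trans h2⟩, hq2⟩, hq1, rfl⟩
  have := beads_preconnected w2 w2_cont w2_nonneg (Icc u v) isPreconnected_Icc u ⟨le_rfl, huv⟩ hu
  rw [← himg] at this
  exact Topology.IsInducing.subtypeVal.isPreconnected_image.1 this

theorem w2_zero : w2 0 = 0 := by simp [w2, w_one]

theorem f_mono (k : ℕ) : MonotoneMap (f k) := by
  intro y
  obtain ⟨p, hp⟩ := f_surj k y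
  have hk := half_pow_pos k
  refine ⟨⟨p, hp⟩, ?_⟩
  by_cases hc : 0 ≤ p.1.1 ∧ p.1.1 ≤ (1 / 2) ^ k
  · have hset : (f k) ⁻¹' {y} = {p : XX | 0 ≤ p.1.1 ∧ p.1.1 ≤ (1 / 2) ^ k} := by
      ext q
      constructor
      · intro hq
        have hq' : f k q = y := hq
        rcases f_fibre k q p (hq'.trans hp.symm) with h | h
        · rw [h]; exact hc
        · exact h.1
      · intro hq
        show f k q = y
        rw [← hp]
        apply Subtype.ext
        show f0 k q = f0 k p
        rw [f_const k q hq.1 hq.2, f_const k p hc.1 hc.2]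
    rw [hset]
    exact subset_strip_connected 0 _ hk.le w2_zero (by norm_num) (half_pow_le k)
  · have hset : (f k) ⁻¹' {y} = {p} := by
      ext q
      constructor
      · intro hq
        have hq' : f k q = y := hq
        rcases f_fibre k q p (hq'.trans hp.symm) with h | h
        · exact h
        · exact absurd h.2 hc
      · intro hq
        rw [hq]; exact hp
    rw [hset]
    exact isPreconnected_singleton

theorem f_diam (k : ℕ) (y : YY) : Metric.diam ((f k) ⁻¹' {y}) ≤ 2 * (1 / 2) ^ k := by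
  have hk := half_pow_pos k
  apply Metric.diam_le_of_forall_dist_le (by positivity)
  intro p hp q hq
  have hp' : f k p = y := hp
  have hq' : f k q = y := hq
  rcases f_fibre k p q (hp'.trans hq'.symm) with h | ⟨⟨a1, a2⟩, ⟨b1, b2⟩⟩
  · rw [h, dist_self]; positivity
  · rw [Subtype.dist_eq, Prod.dist_eq]
    apply max_le
    · rw [Real.dist_eq, abs_le]; constructor <;> linarith
    · have hp2 : |p.1.2| ≤ (1 / 2) ^ k := by
        rw [XX_pos p a1]
        exact (w_le _).trans (by rw [abs_of_nonneg a1]; exact a2)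
      have hq2 : |q.1.2| ≤ (1 / 2) ^ k := by
        rw [XX_pos q b1]
        exact (w_le _).trans (by rw [abs_of_nonneg b1]; exact b2)
      rw [Real.dist_eq]
      have := abs_sub p.1.2 q.1.2
      linarith

theorem f_close (k : ℕ) (p : XX) : dist (f k p) (r p) ≤ (1 / 2) ^ k := by
  have hk := half_pow_pos k
  rw [Subtype.dist_eq]
  show dist (f0 k p) (r0 p) ≤ (1 / 2) ^ k
  by_cases h1 : 0 ≤ p.1.1
  · have hr : r0 p = p.1 := by unfold r0; rw [if_pos h1]
    rw [hr]
    by_cases h2 : p.1.1 ≤ (1 / 2) ^ k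
    · rw [f_const k p h1 h2, Prod.dist_eq]
      apply max_le
      · rw [Real.dist_eq, abs_le]
        constructor
        · show -(1 / 2) ^ k ≤ (1 / 2) ^ k - p.1.1; linarith
        · show (1 / 2) ^ k - p.1.1 ≤ (1 / 2) ^ k; linarith
      · rw [Real.dist_eq]
        show |0 - p.1.2| ≤ (1 / 2) ^ k
        rw [zero_sub, abs_neg, XX_pos p h1]
        exact (w_le _).trans (by rw [abs_of_nonneg h1]; exact h2)
    · have : f0 k p = p.1 := by unfold f0; rw [if_pos (not_le.1 h2).le]
      rw [this, dist_self]; exact hk.le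
  · have hr : r0 p = (0, 0) := by unfold r0; rw [if_neg h1]
    have hf : f0 k p = ((1 / 2) ^ k * (p.1.1 + 1), (1 / 2) ^ k * p.1.2) := by
      unfold f0
      rw [if_neg, if_neg h1]
      intro h; exact h1 (hk.le.trans h)
    push Not at h1
    have hp1 : 0 ≤ p.1.1 + 1 := by linarith [p.2.1.1]
    rw [hr, hf, Prod.dist_eq]
    apply max_le
    · rw [Real.dist_eq]
      show |(1 / 2) ^ k * (p.1.1 + 1) - 0| ≤ (1 / 2) ^ k
      rw [sub_zero, abs_mul, abs_of_pos hk, abs_of_nonneg hp1]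
      nlinarith
    · rw [Real.dist_eq]
      show |(1 / 2) ^ k * p.1.2 - 0| ≤ (1 / 2) ^ k
      rw [sub_zero, abs_mul, abs_of_pos hk, XX_neg p h1.le]
      have := w_le (p.1.1 + 1)
      rw [abs_of_nonneg hp1] at this
      nlinarith

theorem r_refinable : MonotonelyRefinable r := by
  refine ⟨r_cont, r_surj, ?_⟩
  intro ε hε
  obtain ⟨k, hk⟩ := exists_pow_lt_of_lt_one (show (0 : ℝ) < ε / 2 by positivity)
    (show (1 / 2 : ℝ) < 1 by norm_num)
  refine ⟨f k, f_cont k, f_surj k, f_mono k, ?_, ?_⟩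
  · intro y
    exact lt_of_le_of_lt (f_diam k y) (by linarith)
  · intro x
    exact lt_of_le_of_lt (f_close k x) (by linarith)

theorem w2_near (t0 : ℝ) (ht : t0 ∈ Icc (-1 : ℝ) 1) (h0 : w2 t0 = 0) (ε : ℝ) (hε : 0 < ε) :
    ∃ ρ : ℝ, 0 < ρ ∧ ρ < ε ∧ (w2 (t0 + ρ) = 0 ∨ w2 (t0 - ρ) = 0) := by
  have hpos : ∀ t : ℝ, 0 < t → w2 t = w t := fun t h => by
    unfold w2; rw [if_neg (not_le.2 h)]
  have hneg : ∀ t : ℝ, t ≤ 0 → w2 t = w (t + 1) := fun t h => by
    unfold w2; rw [if_pos h]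
  rcases lt_trichotomy t0 0 with h | h | h
  · rw [hneg t0 h.le] at h0
    obtain ⟨ρ, h1, h2, h3⟩ := w_near (t0 + 1) (by linarith [ht.1]) h0 (min ε (-t0))
      (lt_min hε (by linarith))
    have h4 : ρ < -t0 := h2.trans_le (min_le_right _ _)
    refine ⟨ρ, h1, h2.trans_le (min_le_left _ _), h3.imp ?_ ?_⟩
    · intro h5
      rw [hneg _ (by linarith), ← h5]
      congr 1; ring
    · intro h5
      rw [hneg _ (by linarith), ← h5]
      congr 1; ring
  · obtain ⟨k, hk⟩ := exists_pow_lt_of_lt_one hε (show (1 / 2 : ℝ) < 1 by norm_num)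
    refine ⟨(1 / 2) ^ k, half_pow_pos k, hk, Or.inl ?_⟩
    rw [h, zero_add, hpos _ (half_pow_pos k), w_half_pow]
  · rw [hpos t0 h] at h0
    obtain ⟨ρ, h1, h2, h3⟩ := w_near t0 h.le h0 (min ε t0) (lt_min hε h)
    have h4 : ρ < t0 := h2.trans_le (min_le_right _ _)
    refine ⟨ρ, h1, h2.trans_le (min_le_left _ _), h3.imp ?_ ?_⟩
    · intro h5
      rw [hpos _ (by linarith), h5]
    · intro h5
      rw [hpos _ (by linarith), h5]

/-- The limit map is monotone. -/
theorem r_mono : MonotoneMap r := by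
  intro y
  obtain ⟨p, hp⟩ := r_surj y
  refine ⟨⟨p, hp⟩, ?_⟩
  by_cases hc : y.1 = (0, 0)
  · have hset : r ⁻¹' {y} = {p : XX | -1 ≤ p.1.1 ∧ p.1.1 ≤ 0} := by
      ext q
      constructor
      · intro hq
        have hq' : r0 q = (0, 0) := by
          have h1 : r q = y := hq
          rw [← hc, ← h1]; rfl
        refine ⟨q.2.1.1, ?_⟩
        by_contra hcon
        push Not at hcon
        unfold r0 at hq'
        rw [if_pos hcon.le] at hq'
        have h2 : q.1.1 = 0 := congrArg Prod.fst hq'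
        linarith
      · intro hq
        show r q = y
        apply Subtype.ext
        show r0 q = y.1
        rw [hc]
        unfold r0
        split_ifs with h
        · exact XX_at_zero q (le_antisymm hq.2 h)
        · rfl
    rw [hset]
    exact subset_strip_connected (-1) 0 (by norm_num) (by simp [w2, w_zero]) le_rfl (by norm_num)
  · have hset : r ⁻¹' {y} = {p} := by
      have hval : ∀ q : XX, r q = y → q.1 = y.1 := by
        intro q hq
        have h1 : r0 q = y.1 := congrArg Subtype.val hq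
        unfold r0 at h1
        split_ifs at h1 with h
        · exact h1
        · exact absurd h1.symm hc
      ext q
      constructor
      · intro hq
        exact Subtype.ext ((hval q hq).trans (hval p hp).symm)
      · intro hq
        rw [hq]; exact hp
    rw [hset]
    exact isPreconnected_singleton

theorem YY_sub : Beads w (Icc 0 1) ⊆ Beads w2 (Icc (-1) 1) := by
  rintro q ⟨hq1, hq2⟩
  refine ⟨⟨by linarith [hq1.1], hq1.2⟩, ?_⟩
  rw [hq2]
  rcases eq_or_lt_of_le hq1.1 with h0 | h0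
  · rw [← h0]; simp [w2, w_zero, w_one]
  · simp [w2, not_le.2 h0]

theorem r_retract (y : YY) : r ⟨y.1, YY_sub y.2⟩ = y := by
  apply Subtype.ext
  show r0 ⟨y.1, YY_sub y.2⟩ = y.1
  unfold r0
  rw [if_pos]
  exact y.2.1.1

/-! ### The two chains are not homeomorphic: cut points -/

/-- `p` is a cut point -/
def IsCut {X : Type} [TopologicalSpace X] (p : X) : Prop := ¬ IsPreconnected ({p}ᶜ : Set X)

theorem isCut_homeo {X Y : Type} [TopologicalSpace X] [TopologicalSpace Y] (e : X ≃ₜ Y) (p : X)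
    (hp : IsCut p) : IsCut (e p) := by
  intro h
  apply hp
  have h2 := h.image e.symm e.symm.continuous.continuousOn
  have h3 : e.symm '' ({e p}ᶜ : Set Y) = ({p}ᶜ : Set X) := by
    ext x
    constructor
    · rintro ⟨y, hy, rfl⟩ hx
      apply hy
      rw [mem_singleton_iff] at hx ⊢
      rw [← hx]; simp
    · intro hx
      exact ⟨e x, fun h => hx (e.injective h), by simp⟩
  rwa [h3] at h2

/-- The cut points which are limits of points that are not cut points. -/
def BB (X : Type) [TopologicalSpace X] : Set X := {p | IsCut p ∧ p ∈ closure {q : X | ¬ IsCut q}}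

theorem BB_homeo {X Y : Type} [TopologicalSpace X] [TopologicalSpace Y] (e : X ≃ₜ Y) {p : X}
    (hp : p ∈ BB X) : e p ∈ BB Y := by
  refine ⟨isCut_homeo e p hp.1, ?_⟩
  have h1 : e p ∈ closure (e '' {q : X | ¬ IsCut q}) :=
    image_closure_subset_closure_image e.continuous ⟨p, hp.2, rfl⟩
  refine closure_mono ?_ h1
  rintro _ ⟨q, hq, rfl⟩ hcut
  apply hq
  have h2 := isCut_homeo e.symm (e q) hcut
  rwa [e.symm_apply_apply] at h2

/-- Some point of `BB` is a limit of other points of `BB`. -/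
def Acc (X : Type) [TopologicalSpace X] : Prop := ∃ p ∈ BB X, p ∈ closure (BB X \ {p})

theorem Acc_homeo {X Y : Type} [TopologicalSpace X] [TopologicalSpace Y] (e : X ≃ₜ Y)
    (h : Acc X) : Acc Y := by
  obtain ⟨p, hp, hpc⟩ := h
  refine ⟨e p, BB_homeo e hp, ?_⟩
  have h1 : e p ∈ closure (e '' (BB X \ {p})) :=
    image_closure_subset_closure_image e.continuous ⟨p, hpc, rfl⟩
  refine closure_mono ?_ h1
  rintro _ ⟨q, ⟨hq1, hq2⟩, rfl⟩
  exact ⟨BB_homeo e hq1, fun h => hq2 (e.injective h)⟩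

section cuts
variable {d : ℝ → ℝ} {a b : ℝ}

theorem cut_of_zero (hda : d a = 0) (hdb : d b = 0) {t : ℝ} (ht : a < t) (ht1 : t < b)
    (hw : d t = 0) (p : Beads d (Icc a b)) (hp : p.1.1 = t) : IsCut p := by
  intro h
  have hc1 : Continuous (fun q : Beads d (Icc a b) => q.1.1) :=
    continuous_fst.comp continuous_subtype_val
  have hm1 : ((a, 0) : ℝ × ℝ) ∈ Beads d (Icc a b) :=
    ⟨⟨le_rfl, (ht.trans ht1).le⟩, by rw [hda]; simp⟩
  have hm2 : ((b, 0) : ℝ × ℝ) ∈ Beads d (Icc a b) :=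
    ⟨⟨(ht.trans ht1).le, le_rfl⟩, by rw [hdb]; simp⟩
  have hp2 : p.1.2 = 0 := by
    have h2 := p.2.2
    rw [hp, hw, abs_eq_zero] at h2
    exact h2
  have := h {q | q.1.1 < t} {q | t < q.1.1} (isOpen_lt hc1 continuous_const)
    (isOpen_lt continuous_const hc1) ?_ ⟨⟨(a, 0), hm1⟩, ?_, ht⟩ ⟨⟨(b, 0), hm2⟩, ?_, ht1⟩
  · obtain ⟨q, _, hq1, hq2⟩ := this
    exact lt_asymm (show q.1.1 < t from hq1) (show t < q.1.1 from hq2)
  · intro q hq
    rcases lt_trichotomy q.1.1 t with h1 | h1 | h1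
    · left; exact h1
    · exfalso
      apply hq
      have h2 := q.2.2
      rw [h1, hw, abs_eq_zero] at h2
      exact Subtype.ext (Prod.ext (h1.trans hp.symm) (h2.trans hp2.symm))
    · right; exact h1
  · intro h1
    have h2 := congrArg (fun z : Beads d (Icc a b) => z.1.1) h1
    simp only [hp] at h2
    linarith
  · intro h1
    have h2 := congrArg (fun z : Beads d (Icc a b) => z.1.1) h1
    simp only [hp] at h2
    linarith

theorem preconnected_of_image (T : Set (Beads d (Icc a b)))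
    (h : IsPreconnected (Subtype.val '' T)) : IsPreconnected T :=
  Topology.IsInducing.subtypeVal.isPreconnected_image.1 h

theorem not_cut_left (hd : Continuous d) (hd0 : ∀ t, 0 ≤ d t) (hab : a < b) (hda : d a = 0)
    (hdb : d b = 0) (q : Beads d (Icc a b)) (hq : q.1.1 = a) : ¬ IsCut q := by
  intro hcut
  apply hcut
  apply preconnected_of_image
  have hy : q.1.2 = 0 := by
    have h2 := q.2.2
    rw [hq, hda, abs_eq_zero] at h2
    exact h2
  have himg : Subtype.val '' ({q}ᶜ : Set (Beads d (Icc a b))) = Beads d (Ioc a b) := by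
    ext z
    constructor
    · rintro ⟨z', hz', rfl⟩
      refine ⟨⟨?_, z'.2.1.2⟩, z'.2.2⟩
      rcases eq_or_lt_of_le z'.2.1.1 with h1 | h1
      · exfalso
        apply hz'
        have h2 := z'.2.2
        rw [← h1, hda, abs_eq_zero] at h2
        exact Subtype.ext (Prod.ext (h1.symm.trans hq.symm) (h2.trans hy.symm))
      · exact h1
    · rintro ⟨hz1, hz2⟩
      refine ⟨⟨z, ⟨hz1.1.le, hz1.2⟩, hz2⟩, ?_, rfl⟩
      intro h1
      have h2 : z.1 = q.1.1 := congrArg (fun z : Beads d (Icc a b) => z.1.1) h1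
      have := hz1.1
      linarith
  rw [himg]
  exact beads_preconnected d hd hd0 _ isPreconnected_Ioc b ⟨hab, le_rfl⟩ hdb

theorem not_cut_right (hd : Continuous d) (hd0 : ∀ t, 0 ≤ d t) (hab : a < b) (hda : d a = 0)
    (hdb : d b = 0) (q : Beads d (Icc a b)) (hq : q.1.1 = b) : ¬ IsCut q := by
  intro hcut
  apply hcut
  apply preconnected_of_image
  have hy : q.1.2 = 0 := by
    have h2 := q.2.2
    rw [hq, hdb, abs_eq_zero] at h2
    exact h2
  have himg : Subtype.val '' ({q}ᶜ : Set (Beads d (Icc a b))) = Beads d (Ico a b) := by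
    ext z
    constructor
    · rintro ⟨z', hz', rfl⟩
      refine ⟨⟨z'.2.1.1, ?_⟩, z'.2.2⟩
      rcases eq_or_lt_of_le z'.2.1.2 with h1 | h1
      · exfalso
        apply hz'
        have h2 := z'.2.2
        rw [h1, hdb, abs_eq_zero] at h2
        exact Subtype.ext (Prod.ext (h1.trans hq.symm) (h2.trans hy.symm))
      · exact h1
    · rintro ⟨hz1, hz2⟩
      refine ⟨⟨z, ⟨hz1.1, hz1.2.le⟩, hz2⟩, ?_, rfl⟩
      intro h1
      have h2 : z.1 = q.1.1 := congrArg (fun z : Beads d (Icc a b) => z.1.1) h1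
      have := hz1.2
      linarith
  rw [himg]
  exact beads_preconnected d hd hd0 _ isPreconnected_Ico a ⟨le_rfl, hab⟩ hda

theorem not_cut_off (hd : Continuous d) (hd0 : ∀ t, 0 ≤ d t) (hda : d a = 0)
    (hdb : d b = 0) (q : Beads d (Icc a b)) (hy : q.1.2 ≠ 0) : ¬ IsCut q := by
  intro hcut
  apply hcut
  apply preconnected_of_image
  set t0 := q.1.1 with ht0
  have hwt : |q.1.2| = d t0 := q.2.2
  -- sign
  obtain ⟨σ, hσ, hσy⟩ : ∃ σ : ℝ, (σ = 1 ∨ σ = -1) ∧ q.1.2 = σ * d t0 := by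
    rcases abs_cases q.1.2 with ⟨h, _⟩ | ⟨h, _⟩
    · exact ⟨1, Or.inl rfl, by rw [← hwt, h]; ring⟩
    · exact ⟨-1, Or.inr rfl, by rw [← hwt, h]; ring⟩
  have hwpos : 0 < d t0 := by rw [← hwt]; exact abs_pos.2 hy
  have hab : a ≤ b := q.2.1.1.trans q.2.1.2
  have himg : Subtype.val '' ({q}ᶜ : Set (Beads d (Icc a b))) =
      ((fun t => (t, -σ * d t)) '' Icc a b ∪ (fun t => (t, σ * d t)) '' Ico a t0) ∪
        (fun t => (t, σ * d t)) '' Ioc t0 b := by
    ext z
    constructor
    · rintro ⟨z', hz', rfl⟩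
      have hz2 : z'.1.2 = σ * d z'.1.1 ∨ z'.1.2 = -σ * d z'.1.1 := by
        have h3 : |z'.1.2| = d z'.1.1 := z'.2.2
        rcases hσ with h | h <;> rcases abs_cases z'.1.2 with ⟨h4, _⟩ | ⟨h4, _⟩
        · left; rw [h, ← h3, h4]; ring
        · right; rw [h, ← h3, h4]; ring
        · right; rw [h, ← h3, h4]; ring
        · left; rw [h, ← h3, h4]; ring
      rcases hz2 with h4 | h4
      · rcases lt_trichotomy z'.1.1 t0 with h5 | h5 | h5
        · left; right
          exact ⟨z'.1.1, ⟨z'.2.1.1, h5⟩, Prod.ext rfl h4.symm⟩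
        · exfalso
          apply hz'
          apply Subtype.ext
          exact Prod.ext h5 (by rw [h4, h5, hσy])
        · right
          exact ⟨z'.1.1, ⟨h5, z'.2.1.2⟩, Prod.ext rfl h4.symm⟩
      · left; left
        exact ⟨z'.1.1, z'.2.1, Prod.ext rfl h4.symm⟩
    · have habs : ∀ t, |σ * d t| = d t := by
        intro t
        rcases hσ with h | h
        · rw [h, one_mul, abs_of_nonneg (hd0 t)]
        · rw [h, neg_one_mul, abs_neg, abs_of_nonneg (hd0 t)]
      have habs' : ∀ t, |-σ * d t| = d t := by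
        intro t
        rw [neg_mul, abs_neg]; exact habs t
      rintro ((⟨t, ht, rfl⟩ | ⟨t, ht, rfl⟩) | ⟨t, ht, rfl⟩)
      · refine ⟨⟨(t, -σ * d t), ht, habs' t⟩, ?_, rfl⟩
        intro h2
        have h3 : t = t0 := congrArg (fun z : Beads d (Icc a b) => z.1.1) h2
        have h4 : -σ * d t = q.1.2 := congrArg (fun z : Beads d (Icc a b) => z.1.2) h2
        rw [h3, hσy] at h4
        rcases hσ with h | h <;> rw [h] at h4 <;> linarith
      · refine ⟨⟨(t, σ * d t), ⟨ht.1, ht.2.le.trans q.2.1.2⟩, habs t⟩, ?_, rfl⟩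
        intro h2
        have h3 : t = t0 := congrArg (fun z : Beads d (Icc a b) => z.1.1) h2
        have := ht.2
        linarith
      · refine ⟨⟨(t, σ * d t), ⟨q.2.1.1.trans ht.1.le, ht.2⟩, habs t⟩, ?_, rfl⟩
        intro h2
        have h3 : t = t0 := congrArg (fun z : Beads d (Icc a b) => z.1.1) h2
        have := ht.1
        linarith
  rw [himg]
  have ht0pos : a < t0 := by
    rcases eq_or_lt_of_le q.2.1.1 with h | h
    · exfalso
      rw [← ht0] at h
      rw [← h, hda] at hwpos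
      exact lt_irrefl _ hwpos
    · exact h
  have ht0lt : t0 < b := by
    rcases eq_or_lt_of_le q.2.1.2 with h | h
    · exfalso
      rw [← ht0] at h
      rw [h, hdb] at hwpos
      exact lt_irrefl _ hwpos
    · exact h
  have c1 : Continuous (fun t => (t, -σ * d t)) := by fun_prop
  have c2 : Continuous (fun t => (t, σ * d t)) := by fun_prop
  apply IsPreconnected.union (b, 0)
  · left; exact ⟨b, ⟨hab, le_rfl⟩, Prod.ext rfl (by show -σ * d b = 0; rw [hdb, mul_zero])⟩
  · exact ⟨b, ⟨ht0lt, le_rfl⟩, Prod.ext rfl (by show σ * d b = 0; rw [hdb, mul_zero])⟩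
  · apply IsPreconnected.union (a, 0)
    · exact ⟨a, ⟨le_rfl, hab⟩, Prod.ext rfl (by show -σ * d a = 0; rw [hda, mul_zero])⟩
    · exact ⟨a, ⟨le_rfl, ht0pos⟩, Prod.ext rfl (by show σ * d a = 0; rw [hda, mul_zero])⟩
    · exact isPreconnected_Icc.image _ c1.continuousOn
    · exact isPreconnected_Ico.image _ c2.continuousOn
  · exact isPreconnected_Ioc.image _ c2.continuousOn

end cuts

theorem YY_BB (p : YY) (hp : p ∈ BB YY) : p.1.2 = 0 ∧ 0 < p.1.1 ∧ s p.1.1 = 0 := by
  obtain ⟨hcut, hcl⟩ := hp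
  have hy : p.1.2 = 0 := by
    by_contra h
    exact not_cut_off w_cont w_nonneg w_zero w_one p h hcut
  have h0 : 0 < p.1.1 := by
    rcases eq_or_lt_of_le p.2.1.1 with h | h
    · exact absurd hcut (not_cut_left w_cont w_nonneg zero_lt_one w_zero w_one p h.symm)
    · exact h
  have h1 : p.1.1 < 1 := by
    rcases eq_or_lt_of_le p.2.1.2 with h | h
    · exact absurd hcut (not_cut_right w_cont w_nonneg zero_lt_one w_zero w_one p h)
    · exact h
  have hw : w p.1.1 = 0 := by
    have h2 := p.2.2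
    rw [hy, abs_zero] at h2
    exact h2.symm
  refine ⟨hy, h0, le_antisymm (s_of_w h0 hw) ?_⟩
  by_contra hneg
  push Not at hneg
  have hc1 : Continuous (fun q : YY => q.1.1) := continuous_fst.comp continuous_subtype_val
  have e1 : ∀ᶠ q : YY in 𝓝 p, s q.1.1 < 0 :=
    hc1.continuousAt.eventually ((s_contAt p.1.1 h0.ne').eventually_lt_const hneg)
  have e2 : ∀ᶠ q : YY in 𝓝 p, 0 < q.1.1 := hc1.continuousAt.eventually_const_lt h0
  have e3 : ∀ᶠ q : YY in 𝓝 p, q.1.1 < 1 := hc1.continuousAt.eventually_lt_const h1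
  obtain ⟨q, hq, q1, q2, q3⟩ :=
    ((mem_closure_iff_frequently.1 hcl).and_eventually (e1.and (e2.and e3))).exists
  exact hq (cut_of_zero w_zero w_one q2 q3 (w_of_nonpos q1.le) q rfl)

theorem YY_not_Acc : ¬ Acc YY := by
  rintro ⟨p, hp, hcl⟩
  obtain ⟨hy, h0, hs⟩ := YY_BB p hp
  have hc1 : Continuous (fun q : YY => q.1.1) := continuous_fst.comp continuous_subtype_val
  have h1 : ∀ᶠ t in 𝓝[≠] p.1.1, s t ≠ 0 :=
    (s_deriv p.1.1 h0.ne').eventually_ne (s_deriv_ne p.1.1 h0 hs)
  rw [eventually_nhdsWithin_iff] at h1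
  have h2 : ∀ᶠ q : YY in 𝓝 p, q.1.1 ∈ ({p.1.1}ᶜ : Set ℝ) → s q.1.1 ≠ 0 :=
    hc1.continuousAt.eventually h1
  obtain ⟨q, ⟨hq, hqp⟩, hq2⟩ := ((mem_closure_iff_frequently.1 hcl).and_eventually h2).exists
  obtain ⟨hy', -, hs'⟩ := YY_BB q hq
  refine hq2 ?_ hs'
  intro h
  exact hqp (Subtype.ext (Prod.ext h (hy'.trans hy.symm)))

theorem s_pos_near {u : ℝ} (h1 : 1 < u) (h2 : u ≤ 5 / 4) : 0 < s u := by
  have hl2 : 0 < Real.log 2 := Real.log_pos (by norm_num)
  have hlu : 0 < Real.log u := Real.log_pos h1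
  have h3 : 2 * Real.log u < Real.log 2 := by
    have h4 : Real.log (u ^ 2) = 2 * Real.log u := by
      rw [Real.log_pow]; norm_num
    rw [← h4]
    apply Real.log_lt_log (by positivity)
    nlinarith
  have hx0 : 0 < Real.log u / Real.log 2 := div_pos hlu hl2
  have hx1 : Real.log u / Real.log 2 < 1 / 2 := by
    rw [div_lt_iff₀ hl2]; linarith
  have hpi := Real.pi_pos
  unfold s
  apply Real.sin_pos_of_pos_of_lt_pi
  · positivity
  · nlinarith

theorem w2_pos {t : ℝ} (h : 0 < t) : w2 t = w t := by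
  unfold w2; rw [if_neg (not_le.2 h)]

theorem w2_neg_one : w2 (-1) = 0 := by simp [w2, w_zero]

theorem w2_one : w2 1 = 0 := by rw [w2_pos zero_lt_one, w_one]

theorem pt_mem (t : ℝ) (ht : -1 ≤ t) (ht1 : t ≤ 1) (hw : w2 t = 0) :
    ((t, 0) : ℝ × ℝ) ∈ Beads w2 (Icc (-1) 1) := ⟨⟨ht, ht1⟩, by rw [hw]; simp⟩

theorem w2_half_pow (k : ℕ) : w2 ((1 / 2) ^ k) = 0 := by
  rw [w2_pos (half_pow_pos k), w_half_pow]

/-- the points where the segments meet the beads -/
noncomputable def cc (n : ℕ) : XX := ⟨((1 / 2) ^ (n + 1), 0),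
    pt_mem _ (by linarith [half_pow_pos (n + 1)]) (half_pow_le _) (w2_half_pow _)⟩

theorem hlt (n : ℕ) : ((1 : ℝ) / 2) ^ (n + 1) < 1 :=
  pow_lt_one₀ (by norm_num) (by norm_num) (Nat.succ_ne_zero n)

theorem cc_cut (n : ℕ) : IsCut (cc n) :=
  cut_of_zero w2_neg_one w2_one (t := (1 / 2) ^ (n + 1)) (by linarith [half_pow_pos (n + 1)])
    (hlt n) (w2_half_pow _) (cc n) rfl

theorem cc_closure (n : ℕ) : cc n ∈ closure {q : XX | ¬ IsCut q} := by
  let u : ℕ → ℝ := fun j => 1 + (1 / 2) ^ (j + 2)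
  have hu1 : ∀ j, 1 < u j := fun j => by
    have := half_pow_pos (j + 2)
    show (1 : ℝ) < 1 + (1 / 2) ^ (j + 2)
    linarith
  have hu2 : ∀ j, u j ≤ 5 / 4 := fun j => by
    show (1 : ℝ) + (1 / 2) ^ (j + 2) ≤ 5 / 4
    have h1 : ((1 : ℝ) / 2) ^ (j + 2) = (1 / 2) ^ j * (1 / 4) := by rw [pow_add]; norm_num
    have := half_pow_le j
    rw [h1]; linarith
  let t : ℕ → ℝ := fun j => (1 / 2) ^ (n + 1) * u j
  have hk := half_pow_pos (n + 1)
  have ht0 : ∀ j, 0 < t j := fun j => mul_pos hk (by linarith [hu1 j])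
  have ht1 : ∀ j, t j ≤ 1 := fun j => by
    have h1 : ((1 : ℝ) / 2) ^ (n + 1) = (1 / 2) ^ n * (1 / 2) := pow_succ _ _
    have h2 := half_pow_le n
    have h3 : (0 : ℝ) < (1 / 2) ^ n := half_pow_pos n
    show (1 / 2 : ℝ) ^ (n + 1) * u j ≤ 1
    rw [h1]
    nlinarith [hu1 j, hu2 j]
  have hw : ∀ j, 0 < w2 (t j) := fun j => by
    rw [w2_pos (ht0 j)]
    have h1 : w (t j) = |t j| * max (s (t j)) 0 := rfl
    have h2 : s (t j) = s (u j) := s_scale _ _ (by linarith [hu1 j])
    rw [h1, h2]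
    exact mul_pos (abs_pos.2 (ht0 j).ne') (lt_max_of_lt_left (s_pos_near (hu1 j) (hu2 j)))
  let q : ℕ → XX := fun j => ⟨(t j, w2 (t j)), ⟨by linarith [ht0 j], ht1 j⟩,
    abs_of_nonneg (w2_nonneg _)⟩
  have hq : Tendsto q atTop (𝓝 (cc n)) := by
    rw [tendsto_subtype_rng]
    have h1 : Tendsto (fun j : ℕ => ((1 : ℝ) / 2) ^ (j + 2)) atTop (𝓝 0) :=
      (tendsto_pow_atTop_nhds_zero_of_lt_one (by norm_num) (by norm_num)).comp
        (tendsto_add_atTop_nat 2)
    have h2 : Tendsto t atTop (𝓝 ((1 / 2) ^ (n + 1))) := by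
      have h3 := (h1.const_add 1).const_mul ((1 / 2 : ℝ) ^ (n + 1))
      rw [add_zero, mul_one] at h3
      exact h3
    have h4 : Tendsto (fun j => w2 (t j)) atTop (𝓝 0) := by
      have h5 := (w2_cont.tendsto ((1 / 2) ^ (n + 1))).comp h2
      rw [w2_half_pow] at h5
      exact h5
    exact h2.prodMk_nhds h4
  refine mem_closure_of_tendsto hq (Eventually.of_forall fun j => ?_)
  exact not_cut_off w2_cont w2_nonneg w2_neg_one w2_one (q j) (hw j).ne'

theorem XX_Acc : Acc XX := by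
  let x0 : XX := ⟨(0, 0), pt_mem 0 (by norm_num) (by norm_num) w2_zero⟩
  have hlim : Tendsto cc atTop (𝓝 x0) := by
    rw [tendsto_subtype_rng]
    have h1 : Tendsto (fun n : ℕ => ((1 : ℝ) / 2) ^ (n + 1)) atTop (𝓝 0) :=
      (tendsto_pow_atTop_nhds_zero_of_lt_one (by norm_num) (by norm_num)).comp
        (tendsto_add_atTop_nat 1)
    exact h1.prodMk_nhds tendsto_const_nhds
  refine ⟨x0, ⟨?_, ?_⟩, ?_⟩
  · exact cut_of_zero w2_neg_one w2_one (t := 0) (by norm_num) (by norm_num) w2_zero x0 rfl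
  · exact isClosed_closure.mem_of_tendsto hlim (Eventually.of_forall cc_closure)
  · refine mem_closure_of_tendsto hlim (Eventually.of_forall fun n => ⟨⟨cc_cut n, cc_closure n⟩, ?_⟩)
    intro h
    have h4 : ((1 : ℝ) / 2) ^ (n + 1) = 0 := congrArg (fun z : XX => z.1.1) h
    have := half_pow_pos (n + 1)
    linarith

theorem not_homeo : IsEmpty (XX ≃ₜ YY) := ⟨fun e => YY_not_Acc (Acc_homeo e XX_Acc)⟩

theorem XX_regular : CurveOfOrderLE XX 3 := by
  refine ⟨?_, ?_, ?_, ?_⟩
  · exact isCompact_iff_compactSpace.1 (beads_compact w2 w2_cont w2_nonneg _ _)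
  · have h1 : IsConnected (Beads w2 (Icc (-1) 1)) := by
      refine ⟨⟨(0, 0), pt_mem 0 (by norm_num) (by norm_num) w2_zero⟩, ?_⟩
      exact beads_preconnected w2 w2_cont w2_nonneg _ isPreconnected_Icc 0
        ⟨by norm_num, by norm_num⟩ w2_zero
    exact isConnected_iff_connectedSpace.1 h1
  · refine ⟨⟨(0, 0), pt_mem 0 (by norm_num) (by norm_num) w2_zero⟩,
      ⟨((1 / 2) ^ 1, 0), pt_mem _ (by norm_num) (by norm_num) (w2_half_pow 1)⟩, ?_⟩
    intro h
    have h2 : (0 : ℝ) = (1 / 2) ^ 1 := congrArg (fun z : XX => z.1.1) h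
    norm_num at h2
  · intro p
    exact beads_order w2 w2_cont _ w2_near p

theorem YY_regular : CurveOfOrderLE YY 3 := by
  have hm0 : ((0, 0) : ℝ × ℝ) ∈ Beads w (Icc 0 1) := ⟨⟨le_rfl, zero_le_one⟩, by simp [w_zero]⟩
  have hm1 : ((1, 0) : ℝ × ℝ) ∈ Beads w (Icc 0 1) := ⟨⟨zero_le_one, le_rfl⟩, by simp [w_one]⟩
  refine ⟨?_, ?_, ?_, ?_⟩
  · exact isCompact_iff_compactSpace.1 (beads_compact w w_cont w_nonneg _ _)
  · have h1 : IsConnected (Beads w (Icc 0 1)) := by
      refine ⟨⟨(0, 0), hm0⟩, ?_⟩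
      exact beads_preconnected w w_cont w_nonneg _ isPreconnected_Icc 0 ⟨le_rfl, zero_le_one⟩ w_zero
    exact isConnected_iff_connectedSpace.1 h1
  · refine ⟨⟨(0, 0), hm0⟩, ⟨(1, 0), hm1⟩, ?_⟩
    intro h
    have h2 : (0 : ℝ) = 1 := congrArg (fun z : YY => z.1.1) h
    norm_num at h2
  · intro p
    exact beads_order w w_cont _ (fun t0 ht => w_near t0 ht.1) p

/-- There are nondegenerate continua `Y ⊆ X` in the plane all of whose points have order at most
three, and a monotone retraction of `X` onto `Y` which is monotonely refinable, although `X` and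
`Y` are not homeomorphic. -/
theorem result : ∃ (X Y : Set (ℝ × ℝ)) (hYX : Y ⊆ X) (r : X → Y),
    CurveOfOrderLE X 3 ∧ CurveOfOrderLE Y 3 ∧ IsEmpty (X ≃ₜ Y) ∧
      MonotonelyRefinable r ∧ MonotoneMap r ∧ ∀ y : Y, r ⟨y.1, hYX y.2⟩ = y :=
  ⟨_, _, YY_sub, r, XX_regular, YY_regular, not_homeo, r_refinable, r_mono, r_retract⟩

end Pool.Agent.Results.MP_fdfd6d_gt.OrderThree
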